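import Pool.Agent.U126.NC.Mean
import Pool.Agent.U372.HP.Poly

/-!
# Near pairs of vertices of a self-avoiding polygon
-/

set_option autoImplicit false

namespace Pool.Agent.U372.NN

open scoped Classical
open Pool.Agent.W840.CT Pool.Agent.U126.NC
open Pool.Agent.U372.HP (cN poly_prob)
open Pool.Agent.TH546.SAW (IsL phi phi_mem phi_inj PL mem_PL)

/-- the statement for walks -/
def WalkStm : Prop := ∃ K : ℝ, 0 < K ∧ ∀ n : ℕ, 2 ≤ n → ∀ x : ℝ, 0 ≤ x →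
    ((({ω | SW n ω ∧ ¬ ∀ r : ℕ, 1 ≤ r → ∀ t : ℕ, (TR (nr r) n t ω : ℝ) ≤
      Real.exp (K * Real.log (r + 1) ^ 3) * (Real.log n ^ 2 + x)} :
      Set (Fin (n + 1) → ℤ × ℤ)).ncard : ℕ) : ℝ) ≤ Real.exp (-x) * cN n

theorem nr_symm {k : ℕ} {p q : ℤ × ℤ} (h : nr k p q) : nr k q p := by
  unfold nr at *
  rw [abs_sub_comm p.1 q.1, abs_sub_comm p.2 q.2]
  exact h

/-- pairs of vertices across a time -/
theorem strad {N : ℕ} (hN : 2 ≤ N) (f : ZMod (2 * N) → ℤ × ℤ) (r t : ℕ) :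
    ({q : ZMod (2 * N) × ZMod (2 * N) | q.1.val < t ∧ t < q.2.val ∧ nr r (f q.1) (f q.2)}).ncard ≤
      TR (nr r) (2 * N - 1) t (phi N f) := by
  have : NeZero (2 * N) := ⟨by omega⟩
  unfold TR
  rw [← Set.ncard_coe_finset]
  refine Set.ncard_le_ncard_of_injOn (fun q : ZMod (2 * N) × ZMod (2 * N) =>
    ((⟨q.1.val, by have := ZMod.val_lt q.1; omega⟩, ⟨q.2.val, by have := ZMod.val_lt q.2; omega⟩) :
      Fin (2 * N - 1 + 1) × Fin (2 * N - 1 + 1))) ?_ ?_ (Finset.finite_toSet _)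
  · rintro ⟨a, b⟩ ⟨h1, h2, h3⟩
    rw [Finset.mem_coe, Finset.mem_filter]
    refine ⟨Finset.mem_univ _, h1, h2, ?_⟩
    unfold phi
    simp only [ZMod.natCast_zmod_val]
    exact h3
  · rintro ⟨a, b⟩ _ ⟨a', b'⟩ _ h
    simp only [Prod.mk.injEq, Fin.mk.injEq] at h
    rw [ZMod.val_injective _ h.1, ZMod.val_injective _ h.2]

/-- pairs of vertices which are apart -/
theorem apart {N : ℕ} (hN : 2 ≤ N) (f : ZMod (2 * N) → ℤ × ℤ) (r m : ℕ) :
    ({q : ZMod (2 * N) × ZMod (2 * N) | q.1.val + m < q.2.val ∧ nr r (f q.1) (f q.2)}).ncard ≤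
      FR (nr r) (2 * N - 1) m (phi N f) := by
  have : NeZero (2 * N) := ⟨by omega⟩
  unfold FR
  rw [← Set.ncard_coe_finset]
  refine Set.ncard_le_ncard_of_injOn (fun q : ZMod (2 * N) × ZMod (2 * N) =>
    ((⟨q.1.val, by have := ZMod.val_lt q.1; omega⟩, ⟨q.2.val, by have := ZMod.val_lt q.2; omega⟩) :
      Fin (2 * N - 1 + 1) × Fin (2 * N - 1 + 1))) ?_ ?_ (Finset.finite_toSet _)
  · rintro ⟨a, b⟩ ⟨h1, h3⟩
    rw [Finset.mem_coe, Finset.mem_filter]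
    refine ⟨Finset.mem_univ _, h1, ?_⟩
    unfold phi
    simp only [ZMod.natCast_zmod_val]
    exact h3
  · rintro ⟨a, b⟩ _ ⟨a', b'⟩ _ h
    simp only [Prod.mk.injEq, Fin.mk.injEq] at h
    rw [ZMod.val_injective _ h.1, ZMod.val_injective _ h.2]

theorem modc {x M : ℕ} (h : x < 2 * M) : x % M = x ∧ x < M ∨ x % M + M = x ∧ M ≤ x := by
  rcases Nat.lt_or_ge x M with h1 | h1
  · exact Or.inl ⟨Nat.mod_eq_of_lt h1, h1⟩
  · right
    refine ⟨?_, h1⟩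
    rw [Nat.mod_eq_sub_mod h1, Nat.mod_eq_of_lt (by omega)]
    omega

theorem val_shift {M : ℕ} [NeZero M] (a s : ZMod M) :
    a.val = s.val + (a - s).val ∧ s.val + (a - s).val < M ∨
      a.val + M = s.val + (a - s).val ∧ M ≤ s.val + (a - s).val := by
  have h1 : a.val = (s.val + (a - s).val) % M := by
    rw [← ZMod.val_add, add_sub_cancel]
  have h2 := ZMod.val_lt s
  have h3 := ZMod.val_lt (a - s)
  rcases modc (x := s.val + (a - s).val) (M := M) (by omega) with h | h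
  · left
    omega
  · right
    omega

theorem straddle_nat {M s a b l u w e : ℕ} (hs : s < M) (ha : a < M) (hb : b < M) (h1 : 0 < u)
    (h2 : u < l) (h3 : l < w) (h4 : w < M)
    (ea : a = s + u ∧ s + u < M ∨ a + M = s + u ∧ M ≤ s + u)
    (eb : b = s + w ∧ s + w < M ∨ b + M = s + w ∧ M ≤ s + w)
    (ee : e = s + l ∧ s + l < M ∨ e + M = s + l ∧ M ≤ s + l) :
    (a < s ∧ s < b) ∨ (b < s ∧ s < a) ∨ (a < e ∧ e < b) ∨ (b < e ∧ e < a) := by
  rcases ea with ea | ea <;> rcases eb with eb | eb <;> rcases ee with ee | ee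
  · right; right; left; omega
  · exfalso; omega
  · right; left; omega
  · right; left; omega
  · exfalso; omega
  · exfalso; omega
  · exfalso; omega
  · right; right; left; omega

/-- the number of pairs, one strictly inside of an arc, the other strictly outside -/
theorem cross_le {N : ℕ} (hN : 2 ≤ N) (f : ZMod (2 * N) → ℤ × ℤ) (r : ℕ) (s : ZMod (2 * N)) (l : ℕ)
    {J : ℝ} (hJ : ∀ t, (TR (nr r) (2 * N - 1) t (phi N f) : ℝ) ≤ J) :
    ((({q : ZMod (2 * N) × ZMod (2 * N) | 0 < (q.1 - s).val ∧ (q.1 - s).val < l ∧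
      l < (q.2 - s).val ∧ nr r (f q.1) (f q.2)}).ncard : ℕ) : ℝ) ≤ 4 * J := by
  have : NeZero (2 * N) := ⟨by omega⟩
  have hfin : Finite (ZMod (2 * N)) := Finite.of_fintype _
  obtain ⟨S, hS⟩ : ∃ S : ℕ → Set (ZMod (2 * N) × ZMod (2 * N)), ∀ t, S t =
      {q | q.1.val < t ∧ t < q.2.val ∧ nr r (f q.1) (f q.2)} := ⟨_, fun _ => rfl⟩
  obtain ⟨S', hS'⟩ : ∃ S' : ℕ → Set (ZMod (2 * N) × ZMod (2 * N)), ∀ t, S' t =
      {q | q.2.val < t ∧ t < q.1.val ∧ nr r (f q.1) (f q.2)} := ⟨_, fun _ => rfl⟩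
  have h1 : ∀ t, (((S t).ncard : ℕ) : ℝ) ≤ J := by
    intro t
    rw [hS]
    exact (Nat.cast_le.2 (strad hN f r t)).trans (hJ t)
  have h2 : ∀ t, (((S' t).ncard : ℕ) : ℝ) ≤ J := by
    intro t
    refine le_trans ?_ (h1 t)
    refine Nat.cast_le.2 ?_
    refine Set.ncard_le_ncard_of_injOn Prod.swap ?_ (Prod.swap_injective.injOn) (Set.toFinite _)
    rintro ⟨a, b⟩ h
    rw [hS'] at h
    rw [hS]
    exact ⟨h.1, h.2.1, nr_symm h.2.2⟩
  rcases Nat.lt_or_ge l (2 * N) with hl | hl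
  · obtain ⟨T1, hT1⟩ : ∃ T1, T1 = s.val := ⟨_, rfl⟩
    obtain ⟨T2, hT2⟩ : ∃ T2, T2 = (s.val + l) % (2 * N) := ⟨_, rfl⟩
    have hsub : ({q : ZMod (2 * N) × ZMod (2 * N) | 0 < (q.1 - s).val ∧ (q.1 - s).val < l ∧
        l < (q.2 - s).val ∧ nr r (f q.1) (f q.2)}) ⊆ (S T1 ∪ S' T1) ∪ (S T2 ∪ S' T2) := by
      rintro ⟨a, b⟩ ⟨g1, g2, g3, g4⟩
      simp only at g1 g2 g3 g4
      have e1 := val_shift a s
      have e2 := val_shift b s
      have e3 := ZMod.val_lt s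
      have e4 := ZMod.val_lt (b - s)
      have e5 := ZMod.val_lt a
      have e6 := ZMod.val_lt b
      have e7 := modc (x := s.val + l) (M := 2 * N) (by omega)
      rw [← hT2] at e7
      have e8 : T2 = s.val + l ∧ s.val + l < 2 * N ∨ T2 + 2 * N = s.val + l ∧ 2 * N ≤ s.val + l := e7
      simp only [Set.mem_union, hS, hS', Set.mem_ofPred_eq]
      rw [hT1]
      rcases straddle_nat e3 e5 e6 g1 g2 g3 e4 e1 e2 e8 with h | h | h | h
      · exact Or.inl (Or.inl ⟨h.1, h.2, g4⟩)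
      · exact Or.inl (Or.inr ⟨h.1, h.2, g4⟩)
      · exact Or.inr (Or.inl ⟨h.1, h.2, g4⟩)
      · exact Or.inr (Or.inr ⟨h.1, h.2, g4⟩)
    have h3 := Set.ncard_le_ncard hsub (Set.toFinite _)
    have h4 := h3.trans ((Set.ncard_union_le _ _).trans
      (add_le_add (Set.ncard_union_le _ _) (Set.ncard_union_le _ _)))
    have h5 : ((({q : ZMod (2 * N) × ZMod (2 * N) | 0 < (q.1 - s).val ∧ (q.1 - s).val < l ∧
        l < (q.2 - s).val ∧ nr r (f q.1) (f q.2)}).ncard : ℕ) : ℝ) ≤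
        (((S T1).ncard : ℕ) : ℝ) + (((S' T1).ncard : ℕ) : ℝ) +
          ((((S T2).ncard : ℕ) : ℝ) + (((S' T2).ncard : ℕ) : ℝ)) := by exact_mod_cast h4
    have := h1 T1
    have := h2 T1
    have := h1 T2
    have := h2 T2
    linarith
  · have hJ0 : 0 ≤ J := (Nat.cast_nonneg _).trans (hJ 0)
    have he : ({q : ZMod (2 * N) × ZMod (2 * N) | 0 < (q.1 - s).val ∧ (q.1 - s).val < l ∧
        l < (q.2 - s).val ∧ nr r (f q.1) (f q.2)}) = ∅ := by
      ext ⟨a, b⟩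
      simp only [Set.mem_ofPred_eq, Set.mem_empty_iff_false, iff_false]
      rintro ⟨-, -, h, -⟩
      have := ZMod.val_lt (b - s)
      omega
    rw [he, Set.ncard_empty]
    simp only [Nat.cast_zero]
    linarith

/-- the number of pairs with long arcs -/
theorem necks_le {N : ℕ} (hN : 2 ≤ N) (f : ZMod (2 * N) → ℤ × ℤ) (r m : ℕ) (hm : 1 ≤ m)
    {J : ℝ} (hJ : ∀ t, (TR (nr r) (2 * N - 1) t (phi N f) : ℝ) ≤ J) :
    ((({q : ZMod (2 * N) × ZMod (2 * N) | m < (q.2 - q.1).val ∧ m < (q.1 - q.2).val ∧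
      nr r (f q.1) (f q.2)}).ncard : ℕ) : ℝ) ≤ 4 * (N / m * J) := by
  have : NeZero (2 * N) := ⟨by omega⟩
  have hfin : Finite (ZMod (2 * N)) := Finite.of_fintype _
  have hJ0 : 0 ≤ J := (Nat.cast_nonneg _).trans (hJ 0)
  obtain ⟨S, hS⟩ : ∃ S : Set (ZMod (2 * N) × ZMod (2 * N)), S =
      {q | q.1.val + m < q.2.val ∧ nr r (f q.1) (f q.2)} := ⟨_, rfl⟩
  obtain ⟨S', hS'⟩ : ∃ S' : Set (ZMod (2 * N) × ZMod (2 * N)), S' =
      {q | q.2.val + m < q.1.val ∧ nr r (f q.1) (f q.2)} := ⟨_, rfl⟩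
  have hle : (((2 * N - 1 : ℕ) : ℝ)) / m * J ≤ 2 * (N / m * J) := by
    have h0 : (((2 * N - 1 : ℕ) : ℝ)) ≤ 2 * N := by
      have : (((2 * N - 1 : ℕ) : ℝ)) ≤ ((2 * N : ℕ) : ℝ) := by exact_mod_cast Nat.sub_le _ _
      push_cast at this
      exact this
    calc (((2 * N - 1 : ℕ) : ℝ)) / m * J ≤ (2 * N) / m * J := by gcongr
      _ = _ := by ring
  have h1 : ((S.ncard : ℕ) : ℝ) ≤ 2 * (N / m * J) := by
    rw [hS]
    exact (Nat.cast_le.2 (apart hN f r m)).trans ((FR_le (nr r) (2 * N - 1) m hm (phi N f) hJ).trans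
      hle)
  have h2 : ((S'.ncard : ℕ) : ℝ) ≤ 2 * (N / m * J) := by
    refine le_trans ?_ h1
    refine Nat.cast_le.2 ?_
    refine Set.ncard_le_ncard_of_injOn Prod.swap ?_ (Prod.swap_injective.injOn) (Set.toFinite _)
    rintro ⟨a, b⟩ h
    rw [hS'] at h
    rw [hS]
    exact ⟨h.1, nr_symm h.2⟩
  have hsub : ({q : ZMod (2 * N) × ZMod (2 * N) | m < (q.2 - q.1).val ∧ m < (q.1 - q.2).val ∧
      nr r (f q.1) (f q.2)}) ⊆ S ∪ S' := by
    rintro ⟨a, b⟩ ⟨g1, g2, g3⟩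
    simp only at g1 g2 g3
    have e1 := val_shift b a
    have e2 := val_shift a b
    have e3 := ZMod.val_lt (b - a)
    have e4 := ZMod.val_lt (a - b)
    have e5 := ZMod.val_lt a
    have e6 := ZMod.val_lt b
    simp only [Set.mem_union, hS, hS', Set.mem_ofPred_eq]
    rcases Nat.lt_or_ge a.val b.val with h | h
    · left
      refine ⟨?_, g3⟩
      omega
    · right
      refine ⟨?_, g3⟩
      omega
  have h3 := (Set.ncard_le_ncard hsub (Set.toFinite _)).trans (Set.ncard_union_le _ _)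
  have h5 : ((({q : ZMod (2 * N) × ZMod (2 * N) | m < (q.2 - q.1).val ∧ m < (q.1 - q.2).val ∧
      nr r (f q.1) (f q.2)}).ncard : ℕ) : ℝ) ≤ ((S.ncard : ℕ) : ℝ) + ((S'.ncard : ℕ) : ℝ) := by
    exact_mod_cast h3
  linarith

/-- cells between two horizontal edges of the same column -/
def Bet {M : ℕ} (f : ZMod M → ℤ × ℤ) (r m : ℕ) (c : ℤ × ℤ) : Prop :=
  ∃ (i j : ZMod M) (h₁ h₂ : ℤ),
    ((f i = (c.1, h₁) ∧ f (i + 1) = (c.1 + 1, h₁)) ∨ (f i = (c.1 + 1, h₁) ∧ f (i + 1) = (c.1, h₁))) ∧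
    ((f j = (c.1, h₂) ∧ f (j + 1) = (c.1 + 1, h₂)) ∨ (f j = (c.1 + 1, h₂) ∧ f (j + 1) = (c.1, h₂))) ∧
    h₂ ≤ c.2 ∧ c.2 < h₁ ∧ h₁ - h₂ ≤ r ∧ m < (j - i).val ∧ m < (i - j).val

/-- the number of these cells -/
theorem cells_le {N : ℕ} (hN : 2 ≤ N) (f : ZMod (2 * N) → ℤ × ℤ) (r m : ℕ) {J : ℝ}
    (hJ : ((({q : ZMod (2 * N) × ZMod (2 * N) | m < (q.2 - q.1).val ∧ m < (q.1 - q.2).val ∧
      nr (r + 1) (f q.1) (f q.2)}).ncard : ℕ) : ℝ) ≤ J) :
    ((({c : ℤ × ℤ | Bet f r m c}).ncard : ℕ) : ℝ) ≤ r * J := by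
  have : NeZero (2 * N) := ⟨by omega⟩
  have hfin : Finite (ZMod (2 * N)) := Finite.of_fintype _
  obtain ⟨S, hS⟩ : ∃ S : Set (ZMod (2 * N) × ZMod (2 * N)), S =
    {q | m < (q.2 - q.1).val ∧ m < (q.1 - q.2).val ∧ nr (r + 1) (f q.1) (f q.2)} := ⟨_, rfl⟩
  rw [← hS] at hJ
  have hSf : S.Finite := Set.toFinite _
  obtain ⟨T, hT⟩ : ∃ T : Finset (ZMod (2 * N) × ZMod (2 * N)), T = hSf.toFinset := ⟨_, rfl⟩
  have hTc : (T.card : ℝ) ≤ J := by
    rw [hT, ← Set.ncard_eq_toFinset_card S hSf]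
    exact hJ
  obtain ⟨U, hU⟩ : ∃ U : Finset (ℤ × ℤ), U = (T ×ˢ Finset.range r).image
    (fun q => (min (f q.1.1).1 (f (q.1.1 + 1)).1, (f q.1.2).2 + (q.2 : ℤ))) := ⟨_, rfl⟩
  have hsub : ({c : ℤ × ℤ | Bet f r m c}) ⊆ (U : Set (ℤ × ℤ)) := by
    rintro ⟨x, y⟩ ⟨i, j, h₁, h₂, g1, g2, g3, g4, g5, g6, g7⟩
    simp only at g1 g2 g3 g4
    rw [Finset.mem_coe, hU, Finset.mem_image]
    refine ⟨((i, j), (y - h₂).toNat), ?_, ?_⟩
    · rw [Finset.mem_product, hT, Set.Finite.mem_toFinset, hS, Finset.mem_range]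
      refine ⟨⟨g6, g7, ?_⟩, by simp only; omega⟩
      unfold nr
      simp only
      rcases g1 with ⟨g1, -⟩ | ⟨g1, -⟩ <;> rcases g2 with ⟨g2, -⟩ | ⟨g2, -⟩ <;> rw [g1, g2] <;>
        simp only <;> push_cast
      · rw [sub_self, abs_zero, abs_of_nonpos (by omega)]
        omega
      · rw [show x + 1 - x = 1 by ring, abs_one, abs_of_nonpos (by omega)]
        omega
      · rw [show x - (x + 1) = -1 by ring, abs_neg, abs_one, abs_of_nonpos (by omega)]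
        omega
      · rw [sub_self, abs_zero, abs_of_nonpos (by omega)]
        omega
    · simp only
      have e1 : min (f i).1 (f (i + 1)).1 = x := by
        rcases g1 with ⟨g1, g1'⟩ | ⟨g1, g1'⟩ <;> rw [g1, g1'] <;> simp
      have e2 : (f j).2 = h₂ := by
        rcases g2 with ⟨g2, -⟩ | ⟨g2, -⟩ <;> rw [g2]
      rw [e1, e2]
      have : h₂ + ((y - h₂).toNat : ℤ) = y := by omega
      rw [this]
  have h1 := Set.ncard_le_ncard hsub (Finset.finite_toSet U)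
  rw [Set.ncard_coe_finset] at h1
  have h2 : U.card ≤ T.card * r := by
    rw [hU]
    refine Finset.card_image_le.trans ?_
    rw [Finset.card_product, Finset.card_range]
  have h3 : ((({c : ℤ × ℤ | Bet f r m c}).ncard : ℕ) : ℝ) ≤ T.card * r := by
    exact_mod_cast h1.trans h2
  calc _ ≤ (T.card : ℝ) * r := h3
    _ ≤ J * r := by gcongr
    _ = r * J := by ring

end Pool.Agent.U372.NN
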