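import Pool.Agent.U372.NN.Loop

/-!
# Near pairs of vertices of a self-avoiding polygon: the transfer
-/

set_option autoImplicit false

namespace Pool.Agent.U372.NN

open scoped Classical
open Pool.Agent.W840.CT Pool.Agent.U126.NC
open Pool.Agent.U372.HP (cN poly_prob)
open Pool.Agent.TH546.SAW (IsL phi phi_mem phi_inj PL mem_PL)

theorem log_ge' {r : ℕ} (hr : 1 ≤ r) : (0.693 : ℝ) ≤ Real.log ((r : ℝ) + 1) := by
  have h1 : Real.log 2 ≤ Real.log ((r : ℝ) + 1) := by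
    refine Real.log_le_log (by norm_num) ?_
    have : (1 : ℝ) ≤ r := by exact_mod_cast hr
    linarith
  have h2 := Real.log_two_gt_d9
  linarith

theorem cube_ge {r : ℕ} (hr : 1 ≤ r) : (1 / 20 : ℝ) ≤ Real.log ((r : ℝ) + 1) ^ 3 := by
  have h1 := log_ge' hr
  have h2 : (0.693 : ℝ) ^ 3 ≤ Real.log ((r : ℝ) + 1) ^ 3 := pow_le_pow_left₀ (by norm_num) h1 3
  refine le_trans ?_ h2
  norm_num

theorem cube_succ {r : ℕ} (hr : 1 ≤ r) :
    Real.log ((((r + 1 : ℕ)) : ℝ) + 1) ^ 3 ≤ 8 * Real.log ((r : ℝ) + 1) ^ 3 := by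
  have hr' : (1 : ℝ) ≤ r := by exact_mod_cast hr
  have h1 : Real.log ((((r + 1 : ℕ)) : ℝ) + 1) ≤ 2 * Real.log ((r : ℝ) + 1) := by
    rw [← Real.log_rpow (by linarith)]
    refine Real.log_le_log (by positivity) ?_
    push_cast
    norm_num
    nlinarith
  have h0 : 0 ≤ Real.log ((((r + 1 : ℕ)) : ℝ) + 1) := by
    refine Real.log_nonneg ?_
    push_cast
    linarith
  calc _ ≤ (2 * Real.log ((r : ℝ) + 1)) ^ 3 := pow_le_pow_left₀ h0 h1 3
    _ = _ := by ring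

theorem le_expc {r : ℕ} (hr : 1 ≤ r) : (r : ℝ) ≤ Real.exp (3 * Real.log ((r : ℝ) + 1) ^ 3) := by
  have h1 := log_ge' hr
  have hr' : (1 : ℝ) ≤ r := by exact_mod_cast hr
  calc (r : ℝ) ≤ r + 1 := by linarith
    _ = Real.exp (Real.log ((r : ℝ) + 1)) := (Real.exp_log (by linarith)).symm
    _ ≤ _ := by
      refine Real.exp_le_exp.2 ?_
      have h2 : (0.48 : ℝ) ≤ Real.log ((r : ℝ) + 1) ^ 2 := by nlinarith
      nlinarith

/-- **Near pairs of vertices of a polygon.** -/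
theorem poly (hW : WalkStm) : ∃ K : ℝ, 0 < K ∧ ∀ N : ℕ, 2 ≤ N → ∀ x : ℝ, 0 ≤ x →
    (((PL N).filter (fun f => ¬ ∀ r : ℕ, 1 ≤ r →
      (∀ (s : ZMod (2 * N)) (l : ℕ), ((({q : ZMod (2 * N) × ZMod (2 * N) | 0 < (q.1 - s).val ∧
        (q.1 - s).val < l ∧ l < (q.2 - s).val ∧ nr r (f q.1) (f q.2)}).ncard : ℕ) : ℝ) ≤
          Real.exp (K * Real.log (r + 1) ^ 3) * (Real.log N ^ 2 + x)) ∧
      (∀ m : ℕ, 1 ≤ m → ((({q : ZMod (2 * N) × ZMod (2 * N) | m < (q.2 - q.1).val ∧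
        m < (q.1 - q.2).val ∧ nr r (f q.1) (f q.2)}).ncard : ℕ) : ℝ) ≤
          Real.exp (K * Real.log (r + 1) ^ 3) * (N / m) * (Real.log N ^ 2 + x)) ∧
      (∀ m : ℕ, 1 ≤ m → ((({c : ℤ × ℤ | Bet f r m c}).ncard : ℕ) : ℝ) ≤
          Real.exp (K * Real.log (r + 1) ^ 3) * (N / m) * (Real.log N ^ 2 + x)))).card : ℝ) ≤
      Real.exp (-x) * (PL N).card := by
  obtain ⟨K0, hK0, h0⟩ := hW
  obtain ⟨K1, hK1, h1⟩ := poly_prob
  obtain ⟨C, hC⟩ : ∃ C : ℝ, C = 4 * (4 + K1) := ⟨_, rfl⟩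
  have hC1 : 1 ≤ C := by linarith
  have hC0 : 0 ≤ Real.log C := Real.log_nonneg hC1
  refine ⟨8 * K0 + 3 + 20 * Real.log C, by positivity, fun N hN x hx => ?_⟩
  obtain ⟨y, hy⟩ : ∃ y : ℝ, y = x + K1 * Real.log N ^ 2 := ⟨_, rfl⟩
  have hy0 : 0 ≤ y := by rw [hy]; positivity
  obtain ⟨E, hE⟩ : ∃ E : Set (Fin (2 * N - 1 + 1) → ℤ × ℤ),
      E = {ω : Fin (2 * N - 1 + 1) → ℤ × ℤ | ¬ ∀ r : ℕ, 1 ≤ r → ∀ t : ℕ,
        (TR (nr r) (2 * N - 1) t ω : ℝ) ≤ Real.exp (K0 * Real.log (r + 1) ^ 3) *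
          (Real.log ((2 * N - 1 : ℕ) : ℝ) ^ 2 + y)} := ⟨_, rfl⟩
  have h2 : ((({ω | SW (2 * N - 1) ω ∧ ω ∈ E} :
      Set (Fin (2 * N - 1 + 1) → ℤ × ℤ)).ncard : ℕ) : ℝ) ≤
      Real.exp (-y) * cN (2 * N - 1) := by
    rw [hE]
    exact h0 (2 * N - 1) (by omega) y hy0
  have h3 := h1 N hN E y h2
  rw [show -y + K1 * Real.log N ^ 2 = -x by rw [hy]; ring] at h3
  refine le_trans ?_ h3
  have hN0 : (2 : ℝ) ≤ N := by exact_mod_cast hN
  have hlogN : 0 ≤ Real.log N := Real.log_nonneg (by linarith)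
  obtain ⟨Q, hQ⟩ : ∃ Q : ℝ, Q = Real.log N ^ 2 + x := ⟨_, rfl⟩
  have hQ0 : 0 ≤ Q := by rw [hQ]; positivity
  have e1 : Real.log ((2 * N - 1 : ℕ) : ℝ) ^ 2 + y ≤ (4 + K1) * Q := by
    have g1 : Real.log ((2 * N - 1 : ℕ) : ℝ) ≤ 2 * Real.log N := by
      have h4 : Real.log ((2 * N - 1 : ℕ) : ℝ) ≤ Real.log (2 * N) := by
        refine Real.log_le_log ?_ ?_
        · exact_mod_cast (by omega : 0 < 2 * N - 1)
        · have : ((2 * N - 1 : ℕ) : ℝ) ≤ ((2 * N : ℕ) : ℝ) := by exact_mod_cast Nat.sub_le _ _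
          push_cast at this
          exact this
      rw [Real.log_mul (by norm_num) (by linarith)] at h4
      have := Real.log_le_log (by norm_num) hN0
      linarith
    have g0 : 0 ≤ Real.log ((2 * N - 1 : ℕ) : ℝ) := by
      refine Real.log_nonneg ?_
      exact_mod_cast (by omega : 1 ≤ 2 * N - 1)
    have g2 : Real.log ((2 * N - 1 : ℕ) : ℝ) ^ 2 ≤ 4 * Real.log N ^ 2 := by nlinarith
    rw [hy, hQ]
    nlinarith
  have hCle : ∀ r : ℕ, 1 ≤ r → C ≤ Real.exp (20 * Real.log C * Real.log ((r : ℝ) + 1) ^ 3) := by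
    intro r hr
    have g1 := cube_ge hr
    calc C = Real.exp (Real.log C) := (Real.exp_log (by linarith)).symm
      _ ≤ _ := by
        refine Real.exp_le_exp.2 ?_
        nlinarith
  -- the bound for all times
  have main : ∀ r : ℕ, 1 ≤ r → 4 * (Real.exp (K0 * Real.log ((r : ℝ) + 1) ^ 3) *
      (Real.log ((2 * N - 1 : ℕ) : ℝ) ^ 2 + y)) ≤
      Real.exp ((8 * K0 + 3 + 20 * Real.log C) * Real.log ((r : ℝ) + 1) ^ 3) * Q := by
    intro r hr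
    have g1 := cube_ge hr
    calc 4 * (Real.exp (K0 * Real.log ((r : ℝ) + 1) ^ 3) *
          (Real.log ((2 * N - 1 : ℕ) : ℝ) ^ 2 + y))
        ≤ 4 * (Real.exp (K0 * Real.log ((r : ℝ) + 1) ^ 3) * ((4 + K1) * Q)) := by gcongr
      _ = C * Real.exp (K0 * Real.log ((r : ℝ) + 1) ^ 3) * Q := by rw [hC]; ring
      _ ≤ Real.exp (20 * Real.log C * Real.log ((r : ℝ) + 1) ^ 3) *
          Real.exp ((8 * K0 + 3) * Real.log ((r : ℝ) + 1) ^ 3) * Q := by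
          have g2 := hCle r hr
          have g3 : K0 * Real.log ((r : ℝ) + 1) ^ 3 ≤
              (8 * K0 + 3) * Real.log ((r : ℝ) + 1) ^ 3 := by nlinarith
          have g4 := Real.exp_le_exp.2 g3
          gcongr
      _ = _ := by rw [← Real.exp_add]; ring_nf
  have main2 : ∀ r : ℕ, 1 ≤ r → r * (4 * (Real.exp (K0 * Real.log ((((r + 1 : ℕ)) : ℝ) + 1) ^ 3) *
      (Real.log ((2 * N - 1 : ℕ) : ℝ) ^ 2 + y))) ≤
      Real.exp ((8 * K0 + 3 + 20 * Real.log C) * Real.log ((r : ℝ) + 1) ^ 3) * Q := by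
    intro r hr
    have g1 := cube_ge hr
    have g5 := cube_succ hr
    have g6 : Real.exp (K0 * Real.log ((((r + 1 : ℕ)) : ℝ) + 1) ^ 3) ≤
        Real.exp (8 * K0 * Real.log ((r : ℝ) + 1) ^ 3) := by
      refine Real.exp_le_exp.2 ?_
      nlinarith
    have g7 := le_expc hr
    calc r * (4 * (Real.exp (K0 * Real.log ((((r + 1 : ℕ)) : ℝ) + 1) ^ 3) *
          (Real.log ((2 * N - 1 : ℕ) : ℝ) ^ 2 + y)))
        ≤ Real.exp (3 * Real.log ((r : ℝ) + 1) ^ 3) *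
          (4 * (Real.exp (8 * K0 * Real.log ((r : ℝ) + 1) ^ 3) * ((4 + K1) * Q))) := by
          gcongr
      _ = C * (Real.exp (3 * Real.log ((r : ℝ) + 1) ^ 3) *
          Real.exp (8 * K0 * Real.log ((r : ℝ) + 1) ^ 3)) * Q := by rw [hC]; ring
      _ ≤ Real.exp (20 * Real.log C * Real.log ((r : ℝ) + 1) ^ 3) *
          (Real.exp (3 * Real.log ((r : ℝ) + 1) ^ 3) *
          Real.exp (8 * K0 * Real.log ((r : ℝ) + 1) ^ 3)) * Q := by
          have g2 := hCle r hr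
          gcongr
      _ = _ := by rw [← Real.exp_add, ← Real.exp_add]; ring_nf
  refine Nat.cast_le.2 (Finset.card_le_card ?_)
  intro f hf
  rw [Finset.mem_filter] at hf ⊢
  refine ⟨hf.1, ?_⟩
  rw [hE, Set.mem_ofPred_eq]
  intro hcon
  apply hf.2
  intro r hr
  rw [← hQ]
  refine ⟨fun s l => ?_, fun m hm => ?_, fun m hm => ?_⟩
  · exact (cross_le hN f r s l (hcon r hr)).trans (main r hr)
  · have hNm : (0 : ℝ) ≤ (N : ℝ) / m := by positivity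
    refine (necks_le hN f r m hm (hcon r hr)).trans ?_
    calc _ = (N / m : ℝ) * (4 * (Real.exp (K0 * Real.log ((r : ℝ) + 1) ^ 3) *
          (Real.log ((2 * N - 1 : ℕ) : ℝ) ^ 2 + y))) := by ring
      _ ≤ (N / m : ℝ) * (Real.exp ((8 * K0 + 3 + 20 * Real.log C) *
          Real.log ((r : ℝ) + 1) ^ 3) * Q) := mul_le_mul_of_nonneg_left (main r hr) hNm
      _ = _ := by ring
  · have hNm : (0 : ℝ) ≤ (N : ℝ) / m := by positivity
    have h5 := necks_le hN f (r + 1) m hm (hcon (r + 1) (by omega))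
    refine (cells_le hN f r m h5).trans ?_
    calc _ = (N / m : ℝ) * (r * (4 * (Real.exp (K0 * Real.log ((((r + 1 : ℕ)) : ℝ) + 1) ^ 3) *
          (Real.log ((2 * N - 1 : ℕ) : ℝ) ^ 2 + y)))) := by ring
      _ ≤ (N / m : ℝ) * (Real.exp ((8 * K0 + 3 + 20 * Real.log C) *
          Real.log ((r : ℝ) + 1) ^ 3) * Q) := mul_le_mul_of_nonneg_left (main2 r hr) hNm
      _ = _ := by ring

end Pool.Agent.U372.NN
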