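import Pool.Agent.U126.QP.All
import Pool.Agent.TH546.SG.Inst2
import Pool.Agent.U372.NN.Main

/-!
# Near pairs of a walk across all times, for all distances at once

This is the first half of the proof of `MP_46f0ca_pr.NearTails` (helper126), in the form which is
used for polygons.
-/

set_option autoImplicit false

namespace Pool.Agent.U372.NN

open scoped Classical
open Pool.Agent.W840.CT Pool.Agent.U126.NC

theorem cN_eq (n : ℕ) : Pool.Agent.U372.HP.cN n = (cn n : ℝ) := by
  unfold Pool.Agent.U372.HP.cN cn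
  exact congrArg Nat.cast (Nat.card_coe_set_eq ({ω | SW n ω} :
    Set (Fin (n + 1) → ℤ × ℤ))).symm

theorem walk : WalkStm := by
  unfold WalkStm
  obtain ⟨K6, hK6, h6⟩ := Pool.Agent.U126.NC.tail_all (p := 2) (by norm_num)
    Pool.Agent.TH546.SG.CU2
  obtain ⟨K7, hK7, h7⟩ := Pool.Agent.U126.QP.fin Pool.Agent.U126.QP.all
  set C : ℝ := K6 + 1 with hC
  have hC1 : 1 ≤ C := by linarith
  have hC0 : 0 ≤ Real.log C := Real.log_nonneg hC1
  refine ⟨K7 + 100 + 20 * Real.log C, by linarith, fun n hn x hx => ?_⟩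
  choose! D hD1 hD2 hD3 using h7
  set G : ℕ → ℕ := fun r => (2 * r + 1) ^ 2 * D r with hGdef
  have hcn : (0 : ℝ) < cn n := lt_of_lt_of_le one_pos (cn_pos n)
  have hlog : (0.69 : ℝ) < Real.log n := Pool.Agent.TH546.SG.log_ge hn
  have hq : (0.47 : ℝ) ≤ Real.log n ^ 2 + x := by nlinarith
  rw [cN_eq]
  set F : ℕ → ℝ := fun r =>
    Real.exp ((K7 + 100 + 20 * Real.log C) * Real.log (r + 1) ^ 3) with hF
  set y : ℕ → ℝ := fun r => x + 2 * Real.log (r + 1) with hy
  have hlr : ∀ r : ℕ, 0 ≤ Real.log ((r : ℝ) + 1) := fun r => by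
    refine Real.log_nonneg ?_
    have : (0 : ℝ) ≤ r := Nat.cast_nonneg r
    linarith
  have hCG : ∀ r : ℕ, 1 ≤ r → K6 * G r * (Real.log n ^ 2 + y r) ≤
      F r * (Real.log n ^ 2 + x) := by
    intro r hr
    have e1 : Real.log n ^ 2 + y r ≤ (1 + 5 * Real.log (r + 1)) * (Real.log n ^ 2 + x) := by
      have := hlr r
      simp only [hy]
      nlinarith
    have e2 := Pool.Agent.U126.QP.log_abs hr
    have e3 : K6 * (G r : ℝ) ≤ C * Real.exp (K7 * Pool.Agent.U126.QP.lg r) := by
      calc K6 * (G r : ℝ) ≤ C * G r := by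
            refine mul_le_mul_of_nonneg_right (by linarith) (Nat.cast_nonneg _)
        _ ≤ C * Real.exp (K7 * Pool.Agent.U126.QP.lg r) :=
            mul_le_mul_of_nonneg_left (hD3 r hr) (by linarith)
    have e4 := Pool.Agent.U126.QP.absorb hC1 (K := K7 + 100) hr
    calc K6 * G r * (Real.log n ^ 2 + y r)
        ≤ (C * Real.exp (K7 * Pool.Agent.U126.QP.lg r)) *
          ((1 + 5 * Real.log (r + 1)) * (Real.log n ^ 2 + x)) := by
          refine mul_le_mul e3 e1 ?_ (by positivity)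
          have := hlr r
          simp only [hy]
          positivity
      _ ≤ (C * Real.exp (K7 * Pool.Agent.U126.QP.lg r)) *
          (Real.exp (100 * Pool.Agent.U126.QP.lg r) * (Real.log n ^ 2 + x)) := by
          gcongr
      _ = C * Real.exp ((K7 + 100) * Pool.Agent.U126.QP.lg r) * (Real.log n ^ 2 + x) := by
          have e5 : Real.exp ((K7 + 100) * Pool.Agent.U126.QP.lg r) =
              Real.exp (K7 * Pool.Agent.U126.QP.lg r) *
                Real.exp (100 * Pool.Agent.U126.QP.lg r) := by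
            rw [← Real.exp_add]
            ring_nf
          rw [e5]
          ring
      _ ≤ F r * (Real.log n ^ 2 + x) := by
          refine mul_le_mul_of_nonneg_right e4 (by linarith)
  set E : ℕ → Set (Fin (n + 1) → ℤ × ℤ) := fun r =>
    {ω | SW n ω ∧ ∃ t, K6 * G r * (Real.log n ^ 2 + y r) < (TR (nr r) n t ω : ℝ)} with hE
  have hbound : ∀ r : ℕ, 1 ≤ r →
      ((E r).ncard : ℝ) ≤ (Real.exp (-x) * cn n) / ((r : ℝ) + 1) ^ 2 := by
    intro r hr
    have hG1 : 1 ≤ G r := Nat.mul_pos (by positivity) (hD1 r hr)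
    have hT := Pool.Agent.U126.QP.tailD (hD2 r hr)
    have hy0 : 0 ≤ y r := by
      have := hlr r
      simp only [hy]
      linarith
    have g6 := h6 (nr r) (G r) hG1 hT n hn (y r) hy0
    refine g6.trans (le_of_eq ?_)
    have hr1 : (0 : ℝ) < (r : ℝ) + 1 := by positivity
    have e1 : Real.exp (-(y r)) = Real.exp (-x) / ((r : ℝ) + 1) ^ 2 := by
      simp only [hy]
      rw [neg_add, Real.exp_add, div_eq_mul_inv, Real.exp_neg (2 * _), two_mul, Real.exp_add,
        Real.exp_log hr1, sq]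
    rw [e1]
    ring
  have hU := Pool.Agent.U126.QP.union_le (SW_finite n) E (fun r ω hω => hω.1)
    (by positivity) hbound
  refine le_trans ?_ hU
  have hsub : ({ω | SW n ω ∧ ¬ ∀ r : ℕ, 1 ≤ r → ∀ t : ℕ,
      (TR (nr r) n t ω : ℝ) ≤ F r * (Real.log n ^ 2 + x)} :
      Set (Fin (n + 1) → ℤ × ℤ)) ⊆ {ω | ∃ r, 1 ≤ r ∧ ω ∈ E r} := by
    rintro ω ⟨g1, g2⟩
    by_contra hcon
    apply g2
    intro r hr t
    by_contra hc
    rw [not_le] at hc
    exact hcon ⟨r, hr, g1, t, (hCG r hr).trans_lt hc⟩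
  have hfin : ({ω | ∃ r, 1 ≤ r ∧ ω ∈ E r} : Set (Fin (n + 1) → ℤ × ℤ)).Finite :=
    (SW_finite n).subset (fun ω hω => by obtain ⟨r, _, h⟩ := hω; exact h.1)
  have hle := Set.ncard_le_ncard hsub hfin
  exact (Nat.cast_le (α := ℝ)).2 hle

end Pool.Agent.U372.NN
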